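import Pool.Agent.U916.GP.Fin

set_option autoImplicit false

/-!
# Torsion in the class groups of quadratic fields: the values of any integral polynomial

Let `f` be a polynomial of degree `n ≥ 2` with integer coefficients that is not a constant times a
square.  For the quadratic fields, real or imaginary, of discriminant `f(t)` the mean value of the
number of elements of the class group killed by `l` is at most
`C T ^ (n / 2 - (3 / 8) (n / l) ^ (2 / 3))` for every `l ≥ 100 n`, while the generalised Riemann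
hypothesis gives the exponent `n / 2 - n / (2 l)`.  New: the `p`-adic determinant method with the
Hensel expansion of the square root of `f`, and a descent modulo a large prime in place of the
transcendence of the square root (so no condition on the degree or on the sign is needed).
-/

namespace Pool.Agent.Results.MP_16912e_nt.PolynomialFamiliesSaving

open NumberField Polynomial

/-- Let `f` be a polynomial of degree `n ≥ 2` with integer coefficients that is not a constant times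
the square of a polynomial.

First part: let `l, k, r ≥ 1` be natural numbers with `n k ≤ l` and `3 r ≤ 2 k`, put
`δ = (n k) ^ 2 / (4 l ^ 2)` and let `ε > 0`.  There is a constant `C` such that for all `T ≥ 1` and
all quadratic fields `K_t` (real or imaginary) of discriminant `f(t)`, where `t` runs through a finite
set `S` of integers with `|t| ≤ T`,
`∑_{t ∈ S} |Cl(K_t)[l]| ^ r ≤ C T ^ (1 + n r / 2 - min (δ, r (1 - δ) / (2 k)) + ε)`.

Second part: for every natural number `l ≥ 100 n` there is a constant `C` such that for such `T`, `S`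
and `K_t` `∑_{t ∈ S} |Cl(K_t)[l]| ≤ C T ^ (1 + n / 2 - (3 / 8) (n / l) ^ (2 / 3))`. -/
theorem result (f : ℤ[X]) (hf : ∀ (c : ℚ) (g : ℚ[X]), f.map (Int.castRingHom ℚ) ≠ C c * g ^ 2)
    (n : ℕ) (hfn : f.natDegree = n) (hn : 2 ≤ n) :
    (∀ l k r : ℕ, 1 ≤ r → 1 ≤ k → n * k ≤ l → 3 * r ≤ 2 * k → ∀ ε : ℝ, 0 < ε → ∃ C : ℝ, 0 < C ∧
      ∀ T : ℝ, 1 ≤ T →
      ∀ (S : Finset ℤ) (K : ℤ → Type) [∀ t, Field (K t)] [∀ t, NumberField (K t)],
      (∀ t ∈ S, |(t : ℝ)| ≤ T ∧ Module.finrank ℚ (K t) = 2 ∧ NumberField.discr (K t) = f.eval t) →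
      ∑ t ∈ S, (Nat.card {c : ClassGroup (𝓞 (K t)) // c ^ l = 1} : ℝ) ^ r ≤
        C * T ^ (1 + (n : ℝ) * (r : ℝ) / 2 - min (((n : ℝ) * (k : ℝ)) ^ 2 / (4 * (l : ℝ) ^ 2))
          ((r : ℝ) * (1 - ((n : ℝ) * (k : ℝ)) ^ 2 / (4 * (l : ℝ) ^ 2)) / (2 * (k : ℝ))) + ε)) ∧
    (∀ l : ℕ, 100 * n ≤ l → ∃ C : ℝ, 0 < C ∧ ∀ T : ℝ, 1 ≤ T →
      ∀ (S : Finset ℤ) (K : ℤ → Type) [∀ t, Field (K t)] [∀ t, NumberField (K t)],
      (∀ t ∈ S, |(t : ℝ)| ≤ T ∧ Module.finrank ℚ (K t) = 2 ∧ NumberField.discr (K t) = f.eval t) →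
      ∑ t ∈ S, (Nat.card {c : ClassGroup (𝓞 (K t)) // c ^ l = 1} : ℝ) ≤
        C * T ^ (1 + (n : ℝ) / 2 - 3 / 8 * ((n : ℝ) / (l : ℝ)) ^ ((2 : ℝ) / 3))) :=
  ⟨fun l k r hr hk hkl hrk ε hε => Pool.Agent.U916.GP.full f hf n hfn (by omega) l k r
      (le_trans (by nlinarith) hkl) hr hk hkl hrk ε hε,
    fun l hl => Pool.Agent.U916.GP.mean f hf n hfn (by omega) l hl⟩

end Pool.Agent.Results.MP_16912e_nt.PolynomialFamiliesSaving
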