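import Pool.Agent.U916.GT.Fin

set_option autoImplicit false

/-!
# Torsion in the class groups of quadratic fields: a saving of order `l ^ (-2/3)` on average

For all quadratic fields, real and imaginary, the mean value of the number of elements of the class
group killed by `l` is at most `C X ^ (1/2 - 3 / (8 l ^ (2/3)))` for every `l ≥ 100`; the earlier
exponent is `1/2 - 3 / (2 l + 2)`.  New: a `p`-adic determinant method for the number of discriminants
`D` of size `X` for which a given number `(p q) ^ l`, of arbitrary size against `X`, is primitively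
represented by the principal form.
-/

namespace Pool.Agent.Results.MP_16912e_nt.TwoThirdsSaving

open NumberField

/-- First part: let `l, k, r ≥ 1` be natural numbers with `k ≤ l` and `3 r ≤ 2 k`, put
`δ = k ^ 2 / (4 l ^ 2)` and let `ε > 0`.  There is a constant `C` such that for all `X ≥ 1` and all
quadratic fields `K_D` (real or imaginary) of discriminant `D`, where `D` runs through a finite set
`S` with `|D| ≤ X`,
`∑_{D ∈ S} |Cl(K_D)[l]| ^ r ≤ C X ^ (1 + r / 2 - min (δ, r (1 - δ) / (2 k)) + ε)`.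

Second part: for every natural number `l ≥ 100` there is a constant `C` such that for such `X`, `S`
and `K_D` `∑_{D ∈ S} |Cl(K_D)[l]| ≤ C X ^ (3 / 2 - 3 / (8 l ^ (2 / 3)))`. -/
theorem result :
    (∀ l k r : ℕ, 1 ≤ r → 1 ≤ k → k ≤ l → 3 * r ≤ 2 * k → ∀ ε : ℝ, 0 < ε → ∃ C : ℝ, 0 < C ∧
      ∀ X : ℝ, 1 ≤ X →
      ∀ (S : Finset ℤ) (K : ℤ → Type) [∀ D, Field (K D)] [∀ D, NumberField (K D)],
      (∀ D ∈ S, |(D : ℝ)| ≤ X ∧ Module.finrank ℚ (K D) = 2 ∧ NumberField.discr (K D) = D) →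
      ∑ D ∈ S, (Nat.card {c : ClassGroup (𝓞 (K D)) // c ^ l = 1} : ℝ) ^ r ≤
        C * X ^ (1 + (r : ℝ) / 2 - min ((k : ℝ) ^ 2 / (4 * (l : ℝ) ^ 2))
          ((r : ℝ) * (1 - (k : ℝ) ^ 2 / (4 * (l : ℝ) ^ 2)) / (2 * (k : ℝ))) + ε)) ∧
    (∀ l : ℕ, 100 ≤ l → ∃ C : ℝ, 0 < C ∧ ∀ X : ℝ, 1 ≤ X →
      ∀ (S : Finset ℤ) (K : ℤ → Type) [∀ D, Field (K D)] [∀ D, NumberField (K D)],
      (∀ D ∈ S, |(D : ℝ)| ≤ X ∧ Module.finrank ℚ (K D) = 2 ∧ NumberField.discr (K D) = D) →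
      ∑ D ∈ S, (Nat.card {c : ClassGroup (𝓞 (K D)) // c ^ l = 1} : ℝ) ≤
        C * X ^ ((3 : ℝ) / 2 - 3 / (8 * (l : ℝ) ^ ((2 : ℝ) / 3)))) :=
  ⟨fun l k r hr hk hkl hrk ε hε => Pool.Agent.U916.GT.full l k r hr hk hkl hrk ε hε,
    fun l hl => Pool.Agent.U916.GT.mean l hl⟩

end Pool.Agent.Results.MP_16912e_nt.TwoThirdsSaving
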